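import Pool.Agent.Helper6.HG.Defs2

/-!
# The double commutant theorem for an algebra of matrices with non-degenerate trace form (row DC)

The Jacobson radical of the algebra is nilpotent, hence in the kernel of the trace form, hence zero;
so the algebra is semisimple and the density theorem gives the double commutant over `ℚ`.  Over an
extension `K` one expands the entries in a basis of `K` over `ℚ`.
-/

set_option autoImplicit false

open NumberField MU MT HD

namespace HG

/-- an algebra of matrices with non-degenerate trace form is semisimple -/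
theorem dc_semisimple {ι : Type} [Fintype ι] [DecidableEq ι] (B : Subalgebra ℚ (Matrix ι ι ℚ))
    (hB : ∀ A ∈ B, (∀ C ∈ B, (A * C).trace = 0) → A = 0) : IsSemisimpleRing B := by
  haveI : IsArtinianRing B := IsArtinianRing.of_finite ℚ B
  rw [IsArtinianRing.isSemisimpleRing_iff_jacobson, eq_bot_iff]
  intro a ha
  have hnil : IsNilpotent (Ideal.jacobson (⊥ : Ideal B)) := IsArtinianRing.isNilpotent_jacobson_bot
  rw [Ideal.jacobson_bot] at hnil
  obtain ⟨k, hk⟩ := hnil
  have h1 : ∀ x ∈ Ring.jacobson B, IsNilpotent x := by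
    intro x hx
    refine ⟨k, ?_⟩
    have h2 := Ideal.pow_mem_pow hx k
    rw [hk] at h2
    simpa using h2
  have h3 : (a : Matrix ι ι ℚ) = 0 := by
    apply hB a a.2
    intro C hC
    have h4 : a * (⟨C, hC⟩ : B) ∈ Ring.jacobson B := Ideal.mul_mem_right _ _ ha
    obtain ⟨m, hm⟩ := h1 _ h4
    have h5 : IsNilpotent ((a : Matrix ι ι ℚ) * C) := by
      refine ⟨m, ?_⟩
      have h6 := congrArg (fun x : B => (x : Matrix ι ι ℚ)) hm
      simpa using h6
    exact (Matrix.isNilpotent_trace_of_isNilpotent h5).eq_zero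
  rw [Ideal.mem_bot]
  exact Subtype.ext h3

/-- the double commutant theorem -/
theorem dc_rat {ι : Type} [Fintype ι] [DecidableEq ι] (B : Subalgebra ℚ (Matrix ι ι ℚ))
    (hB : ∀ A ∈ B, (∀ C ∈ B, (A * C).trace = 0) → A = 0) (X : Matrix ι ι ℚ)
    (hX : ∀ T : Matrix ι ι ℚ, (∀ A ∈ B, T * A = A * T) → X * T = T * X) : X ∈ B := by
  classical
  haveI := dc_semisimple B hB
  let φ : B →+* Module.End ℚ (ι → ℚ) :=
    ((Matrix.toLinAlgEquiv' (R := ℚ) (n := ι)).toAlgHom.comp B.val).toRingHom
  letI : Module B (ι → ℚ) := Module.compHom (ι → ℚ) φ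
  have hsm : ∀ (r : B) (v : ι → ℚ), r • v = (r : Matrix ι ι ℚ).mulVec v := by
    intro r v
    change φ r v = _
    rfl
  have hq : ∀ (c : ℚ) (v : ι → ℚ), (algebraMap ℚ B c) • v = c • v := by
    intro c v
    rw [hsm]
    change ((algebraMap ℚ (Matrix ι ι ℚ)) c).mulVec v = c • v
    rw [Algebra.algebraMap_eq_smul_one, Matrix.smul_mulVec, Matrix.one_mulVec]
  -- the matrix of an endomorphism of the module
  have hmat : ∀ g : Module.End B (ι → ℚ), ∃ T : Matrix ι ι ℚ, (∀ v, g v = T.mulVec v) ∧
      ∀ A ∈ B, T * A = A * T := by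
    intro g
    let g' : (ι → ℚ) →ₗ[ℚ] (ι → ℚ) :=
      { toFun := g
        map_add' := fun x y => map_add g x y
        map_smul' := by
          intro c x
          rw [← hq, map_smul, hq]
          rfl }
    refine ⟨LinearMap.toMatrix' g', ?_, ?_⟩
    · intro v
      rw [LinearMap.toMatrix'_mulVec]
      rfl
    · intro A hA
      have h1 : ∀ v, (LinearMap.toMatrix' g' * A).mulVec v = (A * LinearMap.toMatrix' g').mulVec v := by
        intro v
        rw [← Matrix.mulVec_mulVec, ← Matrix.mulVec_mulVec, LinearMap.toMatrix'_mulVec,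
          LinearMap.toMatrix'_mulVec]
        have h2 : g ((⟨A, hA⟩ : B) • v) = (⟨A, hA⟩ : B) • g v := map_smul g (⟨A, hA⟩ : B) v
        exact h2
      exact Matrix.ext_of_mulVec_single fun j => h1 _
  let f : Module.End (Module.End B (ι → ℚ)) (ι → ℚ) :=
    { toFun := fun v => X.mulVec v
      map_add' := fun x y => Matrix.mulVec_add X x y
      map_smul' := by
        intro g v
        obtain ⟨T, hT1, hT2⟩ := hmat g
        have h1 := hX T hT2
        change X.mulVec (g v) = g (X.mulVec v)
        rw [hT1, hT1, Matrix.mulVec_mulVec, Matrix.mulVec_mulVec, h1] }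
  obtain ⟨r, hr⟩ := jacobson_density (R := B) f
    (Finset.univ.image fun i : ι => (Pi.single i (1 : ℚ) : ι → ℚ))
  have h2 : X = (r : Matrix ι ι ℚ) := by
    refine Matrix.ext_of_mulVec_single fun j => ?_
    have h3 := hr (Pi.single j 1) (Finset.mem_image_of_mem _ (Finset.mem_univ j))
    exact h3
  rw [h2]
  exact r.2

/-- DC: the double commutant theorem and its extension to `K`. -/
theorem st_DC : ST_DC := by
  classical
  intro ι _ _ U hU K _ _ X hX
  let b := Module.Basis.ofVectorSpace ℚ K
  let Tk : Module.Basis.ofVectorSpaceIndex ℚ K → Matrix ι ι ℚ := fun k =>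
    Matrix.of fun i j => b.repr (X i j) k
  have hTk : ∀ k, Tk k ∈ Algebra.adjoin ℚ U := by
    intro k
    apply dc_rat _ hU
    intro T hT
    have h0 := hX T fun A hA => hT A (Algebra.subset_adjoin hA)
    ext i j
    have h1 := congrArg (fun M : Matrix ι ι K => b.repr (M i j) k) h0
    simp only [Matrix.mul_apply, Matrix.map_apply, map_sum, Finsupp.coe_finsetSum,
      Finset.sum_apply] at h1
    rw [Matrix.mul_apply, Matrix.mul_apply]
    have h2 : ∀ (x : K) (q : ℚ), b.repr (x * algebraMap ℚ K q) k = b.repr x k * q := by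
      intro x q
      have h3 : x * algebraMap ℚ K q = q • x := by
        rw [Algebra.smul_def, mul_comm]
      rw [h3, map_smul, Finsupp.smul_apply, smul_eq_mul, mul_comm]
    have h4 : ∀ (x : K) (q : ℚ), b.repr (algebraMap ℚ K q * x) k = q * b.repr x k := by
      intro x q
      rw [← Algebra.smul_def, map_smul, Finsupp.smul_apply, smul_eq_mul]
    simp only [h2, h4] at h1
    exact h1
  let s : Finset (Module.Basis.ofVectorSpaceIndex ℚ K) :=
    Finset.univ.biUnion fun i : ι => Finset.univ.biUnion fun j : ι => (b.repr (X i j)).support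
  have hTs : X = ∑ k ∈ s, b k • (Tk k).map (algebraMap ℚ K) := by
    ext i j
    rw [Matrix.sum_apply]
    have h3 : X i j = ∑ k ∈ (b.repr (X i j)).support, (b.repr (X i j) k) • b k := by
      conv_lhs => rw [← b.linearCombination_repr (X i j)]
      rfl
    rw [h3, Finset.sum_subset (s₂ := s)]
    · refine Finset.sum_congr rfl fun k _ => ?_
      rw [Matrix.smul_apply, Matrix.map_apply, Algebra.smul_def, smul_eq_mul, mul_comm]
      rfl
    · intro k hk
      exact Finset.mem_biUnion.mpr ⟨i, Finset.mem_univ _,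
        Finset.mem_biUnion.mpr ⟨j, Finset.mem_univ _, hk⟩⟩
    · intro k _ hk
      rw [Finsupp.notMem_support_iff.mp hk, zero_smul]
  rw [hTs]
  refine Submodule.sum_mem _ fun k _ => Submodule.smul_mem _ _ (Submodule.subset_span ?_)
  exact ⟨Tk k, hTk k, rfl⟩

end HG
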