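import Mathlib

/-!
# HG, module KT: preliminaries (operators close to the identity, first order expansions)
-/

set_option autoImplicit false

open Filter Topology

namespace HG

namespace Kt91

section Iso

variable {l : ℕ} [Fact l.Prime] {E : Type*} [NormedAddCommGroup E] [NormedSpace ℚ_[l] E]
  [IsUltrametricDist E]

/-- the operator is the identity modulo `l²` -/
def Nr (R : Module.End ℚ_[l] E) : Prop := ∀ x, ‖R x - x‖ ≤ ((l : ℝ) ^ 2)⁻¹ * ‖x‖

omit [Fact l.Prime] in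
theorem inv_lt (hl : 2 ≤ l) : ((l : ℝ) ^ 2)⁻¹ < (l : ℝ)⁻¹ := by
  have h1 : (2 : ℝ) ≤ l := by exact_mod_cast hl
  apply inv_strictAnti₀ (by linarith)
  nlinarith

omit [Fact l.Prime] in
theorem inv_lt_one (hl : 2 ≤ l) : ((l : ℝ) ^ 2)⁻¹ < 1 := by
  have h1 : (2 : ℝ) ≤ l := by exact_mod_cast hl
  apply inv_lt_one_of_one_lt₀
  nlinarith

theorem two_le : 2 ≤ l := (Fact.out : l.Prime).two_le

theorem Nr.norm_le {R : Module.End ℚ_[l] E} (hR : Nr R) (x : E) : ‖R x‖ ≤ ‖x‖ := by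
  have h1 : R x = (R x - x) + x := by abel
  rw [h1]
  refine (IsUltrametricDist.norm_add_le_max _ _).trans (max_le ?_ le_rfl)
  refine (hR x).trans ?_
  have h2 := (inv_lt_one (l := l) two_le).le
  calc ((l : ℝ) ^ 2)⁻¹ * ‖x‖ ≤ 1 * ‖x‖ := mul_le_mul_of_nonneg_right h2 (norm_nonneg x)
    _ = ‖x‖ := one_mul _

theorem Nr.norm_eq {R : Module.End ℚ_[l] E} (hR : Nr R) (x : E) : ‖R x‖ = ‖x‖ := by
  refine le_antisymm (hR.norm_le x) ?_
  have h1 : x = R x + (x - R x) := by abel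
  have h2 := IsUltrametricDist.norm_add_le_max (R x) (x - R x)
  rw [← h1, norm_sub_rev] at h2
  rcases le_max_iff.1 h2 with h3 | h3
  · exact h3
  · have h4 := h3.trans (hR x)
    have h5 := inv_lt_one (l := l) two_le
    have h6 : ‖x‖ = 0 := by
      by_contra h0
      have h7 : 0 < ‖x‖ := lt_of_le_of_ne (norm_nonneg x) (Ne.symm h0)
      nlinarith
    rw [h6]
    exact norm_nonneg _

theorem Nr.mul {R T : Module.End ℚ_[l] E} (hR : Nr R) (hT : Nr T) : Nr (R * T) := by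
  intro x
  have h1 : (R * T) x - x = (R (T x) - T x) + (T x - x) := by
    rw [Module.End.mul_apply]
    abel
  rw [h1]
  refine (IsUltrametricDist.norm_add_le_max _ _).trans (max_le ?_ (hT x))
  have h2 := hR (T x)
  rwa [hT.norm_eq] at h2

theorem Nr.one : Nr (1 : Module.End ℚ_[l] E) := by
  intro x
  rw [Module.End.one_apply, sub_self, norm_zero]
  positivity

theorem Nr.pow {R : Module.End ℚ_[l] E} (hR : Nr R) (k : ℕ) : Nr (R ^ k) := by
  induction k with
  | zero =>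
    rw [pow_zero]
    exact Nr.one
  | succ k ih =>
    rw [pow_succ]
    exact ih.mul hR

theorem Nr.inv {R T : Module.End ℚ_[l] E} (hR : Nr R) (h : R * T = 1) : Nr T := by
  intro x
  have h1 : R (T x) = x := by
    rw [← Module.End.mul_apply, h, Module.End.one_apply]
  have h2 := hR (T x)
  rw [h1] at h2
  have h3 := hR.norm_eq (T x)
  rw [h1] at h3
  rw [norm_sub_rev, h3]
  exact h2

theorem Nr.step {R : Module.End ℚ_[l] E} (hR : Nr R) (x : E) :
    ‖(R ^ l) x - x‖ = (l : ℝ)⁻¹ * ‖R x - x‖ := by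
  set y := R x - x with hy
  have h1 : (R ^ l) x - x = (l : ℚ_[l]) • y + ∑ k ∈ Finset.range l, ((R ^ k) y - y) := by
    have h2 := geom_sum_mul R l
    have h3 := congrArg (fun T : Module.End ℚ_[l] E => T x) h2
    simp only [Module.End.mul_apply, LinearMap.sub_apply, Module.End.one_apply] at h3
    rw [← h3, Finset.sum_sub_distrib, Finset.sum_const, Finset.card_range, LinearMap.sum_apply,
      ← hy, Nat.cast_smul_eq_nsmul]
    abel
  have h4 : ‖(l : ℚ_[l]) • y‖ = (l : ℝ)⁻¹ * ‖y‖ := by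
    rw [norm_smul, Padic.norm_p]
  have h5 : ‖∑ k ∈ Finset.range l, ((R ^ k) y - y)‖ ≤ ((l : ℝ) ^ 2)⁻¹ * ‖y‖ :=
    IsUltrametricDist.norm_sum_le_of_forall_le_of_nonneg (by positivity)
      fun k _ => (hR.pow k) y
  by_cases h0 : y = 0
  · rw [h1, h0]
    simp
  · have h6 : 0 < ‖y‖ := norm_pos_iff.2 h0
    have h7 : ‖∑ k ∈ Finset.range l, ((R ^ k) y - y)‖ < ‖(l : ℚ_[l]) • y‖ := by
      rw [h4]
      refine h5.trans_lt ?_
      exact mul_lt_mul_of_pos_right (inv_lt two_le) h6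
    rw [h1, IsUltrametricDist.norm_add_eq_max_of_norm_ne_norm h7.ne', max_eq_left h7.le, h4]

/-- the distance of the powers to the identity -/
theorem Nr.iso {R : Module.End ℚ_[l] E} (hR : Nr R) (m : ℕ) (x : E) :
    ‖(R ^ (l ^ m)) x - x‖ = ((l : ℝ) ^ m)⁻¹ * ‖R x - x‖ := by
  induction m with
  | zero => simp
  | succ m ih =>
    rw [pow_succ l m, pow_mul, (hR.pow (l ^ m)).step x, ih, pow_succ]
    rw [mul_inv]
    ring

end Iso

section Der

variable {K : Type*} [NormedField K]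

/-- first order expansion along a sequence of scalars -/
def Dr (q : ℕ → K) (u : ℕ → K) (u0 u' : K) : Prop :=
  Tendsto (fun m => (u m - u0) / q m) atTop (𝓝 u')

theorem Dr.lim {q u : ℕ → K} {u0 u' : K} (hq : Tendsto q atTop (𝓝 0)) (hq0 : ∀ m, q m ≠ 0)
    (h : Dr q u u0 u') : Tendsto u atTop (𝓝 u0) := by
  have h1 : Tendsto (fun m => q m * ((u m - u0) / q m) + u0) atTop (𝓝 (0 * u' + u0)) :=
    (hq.mul h).add_const u0
  rw [zero_mul, zero_add] at h1
  refine h1.congr fun m => ?_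
  rw [mul_div_cancel₀ _ (hq0 m)]
  ring

theorem Dr.const (q : ℕ → K) (c : K) : Dr q (fun _ => c) c 0 := by
  unfold Dr
  simp

theorem Dr.add {q u v : ℕ → K} {u0 u' v0 v' : K} (hu : Dr q u u0 u') (hv : Dr q v v0 v') :
    Dr q (fun m => u m + v m) (u0 + v0) (u' + v') := by
  unfold Dr at *
  refine (Tendsto.add hu hv).congr fun m => ?_
  rw [← add_div]
  congr 1
  ring

theorem Dr.sub {q u v : ℕ → K} {u0 u' v0 v' : K} (hu : Dr q u u0 u') (hv : Dr q v v0 v') :
    Dr q (fun m => u m - v m) (u0 - v0) (u' - v') := by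
  unfold Dr at *
  refine (Tendsto.sub hu hv).congr fun m => ?_
  rw [← sub_div]
  congr 1
  ring

theorem Dr.mul {q u v : ℕ → K} {u0 u' v0 v' : K} (hq : Tendsto q atTop (𝓝 0))
    (hq0 : ∀ m, q m ≠ 0) (hu : Dr q u u0 u') (hv : Dr q v v0 v') :
    Dr q (fun m => u m * v m) (u0 * v0) (u' * v0 + u0 * v') := by
  have h1 := hv.lim hq hq0
  unfold Dr at *
  refine ((hu.mul h1).add (hv.const_mul u0)).congr fun m => ?_
  have := hq0 m
  field_simp
  ring

theorem Dr.sum {q : ℕ → K} {ι : Type*} (s : Finset ι) {u : ι → ℕ → K} {u0 u' : ι → K}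
    (h : ∀ i ∈ s, Dr q (u i) (u0 i) (u' i)) :
    Dr q (fun m => ∑ i ∈ s, u i m) (∑ i ∈ s, u0 i) (∑ i ∈ s, u' i) := by
  unfold Dr at *
  refine (tendsto_finsetSum s h).congr fun m => ?_
  rw [← Finset.sum_sub_distrib, Finset.sum_div]

theorem Dr.prod {q : ℕ → K} (hq : Tendsto q atTop (𝓝 0)) (hq0 : ∀ m, q m ≠ 0) {ι : Type*}
    [DecidableEq ι] (s : Finset ι) {u : ι → ℕ → K} {u0 u' : ι → K}
    (h : ∀ i ∈ s, Dr q (u i) (u0 i) (u' i)) :
    Dr q (fun m => ∏ i ∈ s, u i m) (∏ i ∈ s, u0 i)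
      (∑ i ∈ s, u' i * ∏ j ∈ s.erase i, u0 j) := by
  induction s using Finset.induction_on with
  | empty => simpa using Dr.const q (1 : K)
  | insert a s ha ih =>
    have h1 := ih fun i hi => h i (Finset.mem_insert_of_mem hi)
    have h2 := h a (Finset.mem_insert_self a s)
    have h3 := Dr.mul hq hq0 h2 h1
    have h4 : (∑ i ∈ insert a s, u' i * ∏ j ∈ (insert a s).erase i, u0 j) =
        u' a * ∏ i ∈ s, u0 i + u0 a * ∑ i ∈ s, u' i * ∏ j ∈ s.erase i, u0 j := by
      rw [Finset.sum_insert ha, Finset.erase_insert ha, Finset.mul_sum]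
      congr 1
      refine Finset.sum_congr rfl fun i hi => ?_
      have hai : a ≠ i := fun h => ha (h ▸ hi)
      rw [Finset.erase_insert_of_ne hai,
        Finset.prod_insert (fun h => ha (Finset.mem_of_mem_erase h))]
      ring
    rw [h4, Finset.prod_insert ha]
    refine Tendsto.congr (fun m => ?_) h3
    beta_reduce
    rw [Finset.prod_insert ha]

end Der

end Kt91

end HG
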