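import Pool.Agent.Helper6.HG.Defs
import Pool.Agent.Helper91.HG.Iso

/-!
# HG, module KT: tensors killed by the Lie algebra of the monodromy group are Tate classes
-/

set_option autoImplicit false

open NumberField MU MT HD Filter Topology

namespace HG

namespace Kt91

section Mat

variable {K : Type} [NormedField K] {n : ℕ}

/-- first order expansion of a polynomial at `1` -/
theorem dr_ev {q : ℕ → K} (hq : Tendsto q atTop (𝓝 0)) (hq0 : ∀ m, q m ≠ 0)
    (X : ℕ → Matrix (Fin n) (Fin n) K) (A : Matrix (Fin n) (Fin n) K)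
    (h : ∀ i j, Dr q (fun m => X m i j) ((1 : Matrix (Fin n) (Fin n) K) i j) (A i j))
    (f : MvPolynomial (Fin n × Fin n) K) :
    Dr q (fun m => ev (X m) f) (ev (1 : Matrix (Fin n) (Fin n) K) f)
      (∑ i, ∑ j, A i j * ev (1 : Matrix (Fin n) (Fin n) K) (MvPolynomial.pderiv (i, j) f)) := by
  induction f using MvPolynomial.induction_on with
  | C a =>
    simp only [ev_C, MvPolynomial.pderiv_C, map_zero, mul_zero, Finset.sum_const_zero]
    exact Dr.const q _
  | add p r hp hr =>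
    simp only [map_add, mul_add, Finset.sum_add_distrib]
    exact hp.add hr
  | mul_X p ij hp =>
    have h1 := Dr.mul hq hq0 hp (h ij.1 ij.2)
    have h2 : (∑ i, ∑ j, A i j * ev (1 : Matrix (Fin n) (Fin n) K)
        (MvPolynomial.pderiv (i, j) (p * MvPolynomial.X ij))) =
        (∑ i, ∑ j, A i j * ev (1 : Matrix (Fin n) (Fin n) K) (MvPolynomial.pderiv (i, j) p)) *
          (1 : Matrix (Fin n) (Fin n) K) ij.1 ij.2 +
        ev (1 : Matrix (Fin n) (Fin n) K) p * A ij.1 ij.2 := by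
      have h3 : ∀ i j, A i j * ev (1 : Matrix (Fin n) (Fin n) K)
          (MvPolynomial.pderiv (i, j) (p * MvPolynomial.X ij)) =
          A i j * ev (1 : Matrix (Fin n) (Fin n) K) (MvPolynomial.pderiv (i, j) p) *
            (1 : Matrix (Fin n) (Fin n) K) ij.1 ij.2 +
          if (i, j) = ij then ev (1 : Matrix (Fin n) (Fin n) K) p * A i j else 0 := by
        intro i j
        rw [Derivation.leibniz, MvPolynomial.pderiv_X, map_add, smul_eq_mul, smul_eq_mul, map_mul,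
          map_mul, ev_X]
        by_cases hij : (i, j) = ij
        · subst hij
          rw [Pi.single_eq_same, map_one, if_pos rfl]
          ring
        · rw [Pi.single_eq_of_ne (Ne.symm hij), map_zero, if_neg hij]
          ring
      simp only [h3, Finset.sum_add_distrib, Finset.sum_mul]
      congr 1
      have h4 : ∀ i j, (if (i, j) = ij then ev (1 : Matrix (Fin n) (Fin n) K) p * A i j else 0) =
          if i = ij.1 then (if j = ij.2 then ev (1 : Matrix (Fin n) (Fin n) K) p * A i j else 0)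
            else 0 := by
        intro i j
        by_cases h5 : i = ij.1
        · by_cases h6 : j = ij.2
          · rw [if_pos h5, if_pos h6, if_pos (Prod.ext h5 h6)]
          · rw [if_pos h5, if_neg h6, if_neg (fun h => h6 (congrArg Prod.snd h))]
        · rw [if_neg h5, if_neg (fun h => h5 (congrArg Prod.fst h))]
      simp only [h4]
      rw [Finset.sum_eq_single ij.1]
      · rw [Finset.sum_eq_single ij.2]
        · simp
        · intro j _ hj
          simp [hj]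
        · intro hj
          exact absurd (Finset.mem_univ _) hj
      · intro i _ hi
        simp [hi]
      · intro hi
        exact absurd (Finset.mem_univ _) hi
    rw [h2, map_mul, ev_X]
    refine Tendsto.congr (fun m => ?_) h1
    beta_reduce
    rw [map_mul, ev_X]

/-- first order expansion of the powers -/
theorem dr_pow {q : ℕ → K} (hq : Tendsto q atTop (𝓝 0)) (hq0 : ∀ m, q m ≠ 0)
    (X : ℕ → Matrix (Fin n) (Fin n) K) (A : Matrix (Fin n) (Fin n) K)
    (h : ∀ i j, Dr q (fun m => X m i j) ((1 : Matrix (Fin n) (Fin n) K) i j) (A i j)) (e : ℕ) :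
    ∀ i j, Dr q (fun m => (X m ^ e) i j) ((1 : Matrix (Fin n) (Fin n) K) i j)
      (((e : K) • A) i j) := by
  induction e with
  | zero =>
    intro i j
    simpa using Dr.const q ((1 : Matrix (Fin n) (Fin n) K) i j)
  | succ e ih =>
    intro i j
    have h1 := Dr.sum Finset.univ fun k _ => Dr.mul hq hq0 (ih i k) (h k j)
    have h2 : ∑ k, (1 : Matrix (Fin n) (Fin n) K) i k * (1 : Matrix (Fin n) (Fin n) K) k j =
        (1 : Matrix (Fin n) (Fin n) K) i j := by
      rw [← Matrix.mul_apply, Matrix.one_mul]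
    have h3 : ∑ k, (((e : K) • A) i k * (1 : Matrix (Fin n) (Fin n) K) k j +
        (1 : Matrix (Fin n) (Fin n) K) i k * A k j) = (((e + 1 : ℕ) : K) • A) i j := by
      rw [Finset.sum_add_distrib, ← Matrix.mul_apply, ← Matrix.mul_apply, Matrix.mul_one,
        Matrix.one_mul, Matrix.smul_apply, Matrix.smul_apply, smul_eq_mul, smul_eq_mul]
      push_cast
      ring
    rw [h2, h3] at h1
    refine Tendsto.congr (fun m => ?_) h1
    beta_reduce
    rw [pow_succ, Matrix.mul_apply]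

/-- first order expansion of the tensor powers -/
theorem dr_tp {q : ℕ → K} (hq : Tendsto q atTop (𝓝 0)) (hq0 : ∀ m, q m ≠ 0)
    (X : ℕ → Matrix (Fin n) (Fin n) K) (A : Matrix (Fin n) (Fin n) K)
    (h : ∀ i j, Dr q (fun m => X m i j) ((1 : Matrix (Fin n) (Fin n) K) i j) (A i j)) (a : ℕ)
    (i j : Fin a → Fin n) :
    Dr q (fun m => tp a (X m) i j) ((1 : Matrix (Fin a → Fin n) (Fin a → Fin n) K) i j)
      (dtp a A i j) := by
  have h1 := Dr.prod hq hq0 Finset.univ fun s _ => h (i s) (j s)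
  have h2 : ∏ s, (1 : Matrix (Fin n) (Fin n) K) (i s) (j s) =
      (1 : Matrix (Fin a → Fin n) (Fin a → Fin n) K) i j := by
    rw [← tp_one a]
    rfl
  have h3 : (∑ s, A (i s) (j s) * ∏ r ∈ Finset.univ.erase s,
      (1 : Matrix (Fin n) (Fin n) K) (i r) (j r)) = dtp a A i j := by
    unfold dtp
    rw [Matrix.sum_apply]
    refine Finset.sum_congr rfl fun s _ => ?_
    rw [tpf_update, Finset.sdiff_singleton_eq_erase]
  rw [h2, h3] at h1
  exact h1

end Mat

section Op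

variable {l : ℕ} [Fact l.Prime] {n : ℕ}

/-- the coefficients of the action on tensors -/
noncomputable def cf {a b : ℕ} (g : Matrix.GeneralLinearGroup (Fin n) ℚ_[l]) (i i' : Fin a → Fin n)
    (j j' : Fin b → Fin n) : ℚ_[l] :=
  (∏ s, (g : Matrix (Fin n) (Fin n) ℚ_[l]) (i s) (i' s)) *
    ∏ s, ((g⁻¹ : Matrix.GeneralLinearGroup (Fin n) ℚ_[l]) : Matrix (Fin n) (Fin n) ℚ_[l])
      (j' s) (j s)

theorem act_cf {a b : ℕ} (g : Matrix.GeneralLinearGroup (Fin n) ℚ_[l]) (t : Tensor n a b ℚ_[l])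
    (i : Fin a → Fin n) (j : Fin b → Fin n) :
    act g t i j = ∑ i', ∑ j', cf g i i' j j' * t i' j' := rfl

theorem of_act {a b : ℕ} (g : Matrix.GeneralLinearGroup (Fin n) ℚ_[l])
    (t : Tensor n a b ℚ_[l]) :
    (Matrix.of (act g t) : Matrix (Fin a → Fin n) (Fin b → Fin n) ℚ_[l]) =
      tp a (g : Matrix (Fin n) (Fin n) ℚ_[l]) * Matrix.of t *
        tp b ((g⁻¹ : Matrix.GeneralLinearGroup (Fin n) ℚ_[l]) : Matrix (Fin n) (Fin n) ℚ_[l]) := by
  rw [act_eq]
  rfl

theorem act_one' {a b : ℕ} (t : Tensor n a b ℚ_[l]) :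
    act (1 : Matrix.GeneralLinearGroup (Fin n) ℚ_[l]) t = t := by
  have h1 := of_act (1 : Matrix.GeneralLinearGroup (Fin n) ℚ_[l]) t
  rw [inv_one, Units.val_one, tp_one, tp_one, Matrix.one_mul, Matrix.mul_one] at h1
  exact Matrix.of.injective h1

theorem act_mul' {a b : ℕ} (g h : Matrix.GeneralLinearGroup (Fin n) ℚ_[l])
    (t : Tensor n a b ℚ_[l]) : act (g * h) t = act g (act h t) := by
  have h1 : (Matrix.of (act (g * h) t) : Matrix (Fin a → Fin n) (Fin b → Fin n) ℚ_[l]) =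
      Matrix.of (act g (act h t)) := by
    rw [of_act, of_act, of_act, mul_inv_rev, Units.val_mul, Units.val_mul, tp_mul, tp_mul]
    simp only [Matrix.mul_assoc]
  exact Matrix.of.injective h1

/-- the action on tensors -/
noncomputable def actH (a b : ℕ) : Matrix.GeneralLinearGroup (Fin n) ℚ_[l] →*
    Module.End ℚ_[l] (Tensor n a b ℚ_[l]) where
  toFun g :=
    { toFun := act g
      map_add' := fun t t' => by
        funext i j
        simp only [act, Pi.add_apply, mul_add, Finset.sum_add_distrib]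
      map_smul' := fun c t => by
        funext i j
        simp only [act, Pi.smul_apply, smul_eq_mul, RingHom.id_apply, Finset.mul_sum]
        refine Finset.sum_congr rfl fun i' _ => Finset.sum_congr rfl fun j' _ => ?_
        ring }
  map_one' := LinearMap.ext fun t => act_one' t
  map_mul' g h := LinearMap.ext fun t => act_mul' g h t

theorem actH_apply (a b : ℕ) (g : Matrix.GeneralLinearGroup (Fin n) ℚ_[l])
    (t : Tensor n a b ℚ_[l]) : actH a b g t = act g t := rfl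

/-- the action on vectors -/
noncomputable def vecH : Matrix.GeneralLinearGroup (Fin n) ℚ_[l] →* Module.End ℚ_[l] (Fin n → ℚ_[l]) where
  toFun g := (g : Matrix (Fin n) (Fin n) ℚ_[l]).mulVecLin
  map_one' := LinearMap.ext fun t => by
    rw [Units.val_one, Matrix.mulVecLin_apply, Matrix.one_mulVec, Module.End.one_apply]
  map_mul' g h := LinearMap.ext fun t => by
    rw [Units.val_mul, Matrix.mulVecLin_apply, Module.End.mul_apply, Matrix.mulVecLin_apply,
      Matrix.mulVecLin_apply, Matrix.mulVec_mulVec]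

theorem vecH_single (g : Matrix.GeneralLinearGroup (Fin n) ℚ_[l]) (i j : Fin n) :
    vecH g (Pi.single j 1) i = (g : Matrix (Fin n) (Fin n) ℚ_[l]) i j := by
  change ((g : Matrix (Fin n) (Fin n) ℚ_[l]).mulVec (Pi.single j 1)) i = _
  rw [Matrix.mulVec_single_one]
  rfl

theorem nr_act (a b : ℕ) (g : Matrix.GeneralLinearGroup (Fin n) ℚ_[l])
    (h : ∀ (i i' : Fin a → Fin n) (j j' : Fin b → Fin n),
      ‖cf g i i' j j' - cf 1 i i' j j'‖ ≤ ((l : ℝ) ^ 2)⁻¹) : Nr (actH a b g) := by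
  intro t
  have h0 : 0 ≤ ((l : ℝ) ^ 2)⁻¹ * ‖t‖ := by positivity
  rw [pi_norm_le_iff_of_nonneg h0]
  intro i
  rw [pi_norm_le_iff_of_nonneg h0]
  intro j
  have h1 : (actH a b g t - t) i j = ∑ i', ∑ j', (cf g i i' j j' - cf 1 i i' j j') * t i' j' := by
    have h2 : (actH a b g t - t) i j = act g t i j - act 1 t i j := by
      rw [act_one']
      rfl
    rw [h2, act_cf, act_cf]
    simp only [sub_mul, Finset.sum_sub_distrib]
  rw [h1]
  refine IsUltrametricDist.norm_sum_le_of_forall_le_of_nonneg h0 fun i' _ =>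
    IsUltrametricDist.norm_sum_le_of_forall_le_of_nonneg h0 fun j' _ => ?_
  rw [norm_mul]
  exact mul_le_mul (h i i' j j') ((norm_le_pi_norm (t i') j').trans (norm_le_pi_norm t i'))
    (norm_nonneg _) (by positivity)

theorem nr_vec (g : Matrix.GeneralLinearGroup (Fin n) ℚ_[l])
    (h : ∀ i j : Fin n, ‖(g : Matrix (Fin n) (Fin n) ℚ_[l]) i j -
      (1 : Matrix (Fin n) (Fin n) ℚ_[l]) i j‖ ≤ ((l : ℝ) ^ 2)⁻¹) : Nr (vecH g) := by
  intro t
  have h0 : 0 ≤ ((l : ℝ) ^ 2)⁻¹ * ‖t‖ := by positivity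
  rw [pi_norm_le_iff_of_nonneg h0]
  intro i
  have h1 : (vecH g t - t) i = ∑ j, ((g : Matrix (Fin n) (Fin n) ℚ_[l]) i j -
      (1 : Matrix (Fin n) (Fin n) ℚ_[l]) i j) * t j := by
    have h2 : (vecH g t - t) i = (g : Matrix (Fin n) (Fin n) ℚ_[l]).mulVec t i -
        (1 : Matrix (Fin n) (Fin n) ℚ_[l]).mulVec t i := by
      rw [Matrix.one_mulVec]
      rfl
    rw [h2, Matrix.mulVec, Matrix.mulVec]
    simp only [dotProduct, sub_mul, Finset.sum_sub_distrib]
  rw [h1]
  refine IsUltrametricDist.norm_sum_le_of_forall_le_of_nonneg h0 fun j _ => ?_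
  rw [norm_mul]
  exact mul_le_mul (h i j) (norm_le_pi_norm t j) (norm_nonneg _) (by positivity)

theorem vec_entry {g : Matrix.GeneralLinearGroup (Fin n) ℚ_[l]} (h : Nr (vecH g)) (i j : Fin n) :
    ‖(g : Matrix (Fin n) (Fin n) ℚ_[l]) i j‖ ≤ 1 := by
  rw [← vecH_single g i j]
  refine (norm_le_pi_norm _ i).trans ?_
  rw [h.norm_eq, Pi.norm_single, norm_one]

theorem vec_pow {g : Matrix.GeneralLinearGroup (Fin n) ℚ_[l]} (h : Nr (vecH g)) (m : ℕ)
    (i j : Fin n) :
    ‖((g : Matrix (Fin n) (Fin n) ℚ_[l]) ^ (l ^ m)) i j - (1 : Matrix (Fin n) (Fin n) ℚ_[l]) i j‖ ≤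
      ((l : ℝ) ^ m)⁻¹ := by
  have h1 := h.iso m (Pi.single j 1)
  have h2 : (((vecH g) ^ (l ^ m)) (Pi.single j 1) - Pi.single j 1 : Fin n → ℚ_[l]) i =
      ((g : Matrix (Fin n) (Fin n) ℚ_[l]) ^ (l ^ m)) i j -
        (1 : Matrix (Fin n) (Fin n) ℚ_[l]) i j := by
    rw [← map_pow, Pi.sub_apply, vecH_single, Units.val_pow_eq_pow_val, Matrix.one_apply,
      Pi.single_apply]
  rw [← h2]
  refine (norm_le_pi_norm _ i).trans ?_
  rw [h1]
  have h3 := h (Pi.single j 1)
  rw [Pi.norm_single, norm_one, mul_one] at h3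
  have h4 := inv_lt_one (l := l) two_le
  have h5 : (0 : ℝ) ≤ ((l : ℝ) ^ m)⁻¹ := by positivity
  calc ((l : ℝ) ^ m)⁻¹ * ‖vecH g (Pi.single j 1) - Pi.single j 1‖ ≤ ((l : ℝ) ^ m)⁻¹ * 1 :=
        mul_le_mul_of_nonneg_left (h3.trans h4.le) h5
    _ = ((l : ℝ) ^ m)⁻¹ := mul_one _

end Op

section Grp

variable {F : Type} [Field F] [NumberField F] {S : Finset ℕ} {n w : ℕ} {h : Fin n → ℕ}

/-- the Galois elements whose action is the identity modulo `l²` -/
def Hs (M : PMot F S n w h) (l : ℕ) [Fact l.Prime] (a b : ℕ) : Subgroup (Gal F) where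
  carrier := {g | Nr (actH a b (M.ρ l g)) ∧ Nr (vecH (M.ρ l g))}
  mul_mem' := by
    rintro g g' ⟨h1, h2⟩ ⟨h3, h4⟩
    refine ⟨?_, ?_⟩
    · rw [map_mul, map_mul]
      exact h1.mul h3
    · rw [map_mul, map_mul]
      exact h2.mul h4
  one_mem' := by
    refine ⟨?_, ?_⟩
    · rw [map_one, map_one]
      exact Nr.one
    · rw [map_one, map_one]
      exact Nr.one
  inv_mem' := by
    rintro g ⟨h1, h2⟩
    refine ⟨h1.inv ?_, h2.inv ?_⟩
    · rw [← map_mul, ← map_mul, mul_inv_cancel, map_one, map_one]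
    · rw [← map_mul, ← map_mul, mul_inv_cancel, map_one, map_one]

theorem mem_Hs {M : PMot F S n w h} {l : ℕ} [Fact l.Prime] {a b : ℕ} {g : Gal F} :
    g ∈ Hs M l a b ↔ Nr (actH a b (M.ρ l g)) ∧ Nr (vecH (M.ρ l g)) := Iff.rfl

theorem isOpen_Hs (M : PMot F S n w h) (l : ℕ) [Fact l.Prime] (a b : ℕ) :
    IsOpen (Hs M l a b : Set (Gal F)) := by
  have hc := M.continuous l
  have hc1 : Continuous fun g : Gal F => ((M.ρ l g : Matrix.GeneralLinearGroup (Fin n) ℚ_[l]) :
      Matrix (Fin n) (Fin n) ℚ_[l]) := Units.continuous_val.comp hc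
  have hc2 : Continuous fun g : Gal F =>
      (((M.ρ l g)⁻¹ : Matrix.GeneralLinearGroup (Fin n) ℚ_[l]) :
        Matrix (Fin n) (Fin n) ℚ_[l]) := Units.continuous_val.comp (continuous_inv.comp hc)
  have hpos : (0 : ℝ) < ((l : ℝ) ^ 2)⁻¹ := by
    have := (Fact.out : l.Prime).pos
    positivity
  have key : ∀ f : Gal F → ℚ_[l], Continuous f → ∀ᶠ g in 𝓝 (1 : Gal F),
      ‖f g - f 1‖ ≤ ((l : ℝ) ^ 2)⁻¹ := by
    intro f hf
    have h1 : Tendsto (fun g => ‖f g - f 1‖) (𝓝 (1 : Gal F)) (𝓝 ‖f 1 - f 1‖) :=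
      (hf.sub continuous_const).norm.tendsto 1
    rw [sub_self, norm_zero] at h1
    exact h1.eventually (Iic_mem_nhds hpos)
  refine Subgroup.isOpen_of_mem_nhds _ (g := 1) ?_
  have e1 : ∀ᶠ g in 𝓝 (1 : Gal F), ∀ (i i' : Fin a → Fin n) (j j' : Fin b → Fin n),
      ‖cf (M.ρ l g) i i' j j' - cf 1 i i' j j'‖ ≤ ((l : ℝ) ^ 2)⁻¹ := by
    rw [eventually_all]
    intro i
    rw [eventually_all]
    intro i'
    rw [eventually_all]
    intro j
    rw [eventually_all]
    intro j'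
    have h2 : Continuous fun g : Gal F => cf (M.ρ l g) i i' j j' := by
      unfold cf
      exact (continuous_finsetProd _ fun s _ => hc1.matrix_elem _ _).mul
        (continuous_finsetProd _ fun s _ => hc2.matrix_elem _ _)
    have h3 := key _ h2
    simp only [map_one] at h3
    exact h3
  have e2 : ∀ᶠ g in 𝓝 (1 : Gal F), ∀ i j : Fin n,
      ‖((M.ρ l g : Matrix.GeneralLinearGroup (Fin n) ℚ_[l]) : Matrix (Fin n) (Fin n) ℚ_[l]) i j -
        (1 : Matrix (Fin n) (Fin n) ℚ_[l]) i j‖ ≤ ((l : ℝ) ^ 2)⁻¹ := by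
    rw [eventually_all]
    intro i
    rw [eventually_all]
    intro j
    have h3 := key _ (hc1.matrix_elem i j)
    simp only [map_one, Units.val_one] at h3
    exact h3
  filter_upwards [e1, e2] with g h1 h2
  exact ⟨nr_act a b _ h1, nr_vec _ h2⟩

theorem lim_A (l : ℕ) [Fact l.Prime] (g : Matrix.GeneralLinearGroup (Fin n) ℚ_[l])
    (hg : Nr (vecH g)) : ∃ (A : Matrix (Fin n) (Fin n) ℚ_[l]) (φ : ℕ → ℕ), StrictMono φ ∧
      ∀ i j, Dr (fun m => (l : ℚ_[l]) ^ φ m)
        (fun m => ((g : Matrix (Fin n) (Fin n) ℚ_[l]) ^ (l ^ φ m)) i j)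
        ((1 : Matrix (Fin n) (Fin n) ℚ_[l]) i j) (A i j) := by
  have hl : 0 < l := (Fact.out : l.Prime).pos
  let Am : ℕ → (Fin n → Fin n → ℚ_[l]) := fun m i j =>
    (((g : Matrix (Fin n) (Fin n) ℚ_[l]) ^ (l ^ m)) i j -
      (1 : Matrix (Fin n) (Fin n) ℚ_[l]) i j) / (l : ℚ_[l]) ^ m
  have hbd : ∀ m, Am m ∈ Metric.closedBall (0 : Fin n → Fin n → ℚ_[l]) 1 := by
    intro m
    rw [mem_closedBall_zero_iff, pi_norm_le_iff_of_nonneg zero_le_one]
    intro i
    rw [pi_norm_le_iff_of_nonneg zero_le_one]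
    intro j
    change ‖(((g : Matrix (Fin n) (Fin n) ℚ_[l]) ^ (l ^ m)) i j -
      (1 : Matrix (Fin n) (Fin n) ℚ_[l]) i j) / (l : ℚ_[l]) ^ m‖ ≤ 1
    rw [norm_div, norm_pow, Padic.norm_p, inv_pow, div_inv_eq_mul]
    calc _ ≤ ((l : ℝ) ^ m)⁻¹ * (l : ℝ) ^ m :=
          mul_le_mul_of_nonneg_right (vec_pow hg m i j) (by positivity)
      _ = 1 := inv_mul_cancel₀ (by positivity)
  obtain ⟨A0, -, φ, hφ, hlim⟩ := tendsto_subseq_of_bounded Metric.isBounded_closedBall hbd
  refine ⟨Matrix.of A0, φ, hφ, ?_⟩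
  intro i j
  exact tendsto_pi_nhds.1 (tendsto_pi_nhds.1 hlim i) j

theorem main (M : PMot F S n w h) (l : ℕ) [Fact l.Prime] (a b : ℕ) (t : Tensor n a b ℚ_[l])
    (hk : ∀ A ∈ glie M l, Kill A t) (g : Gal F) (hg : g ∈ Hs M l a b) :
    act (M.ρ l g) t = t := by
  obtain ⟨hga, hgv⟩ := mem_Hs.1 hg
  have hl : 0 < l := (Fact.out : l.Prime).pos
  have hl0 : (l : ℚ_[l]) ≠ 0 := by exact_mod_cast (Fact.out : l.Prime).ne_zero
  obtain ⟨A, φ, hφ, hY⟩ := lim_A l (M.ρ l g) hgv
  set q : ℕ → ℚ_[l] := fun m => (l : ℚ_[l]) ^ φ m with hqdef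
  have hq0 : ∀ m, q m ≠ 0 := fun m => pow_ne_zero _ hl0
  have hq : Tendsto q atTop (𝓝 0) := by
    have h1 : Tendsto (fun m : ℕ => (l : ℚ_[l]) ^ m) atTop (𝓝 0) := by
      apply tendsto_pow_atTop_nhds_zero_of_norm_lt_one
      rw [Padic.norm_p]
      have h2 : (1 : ℝ) < l := by exact_mod_cast (Fact.out : l.Prime).one_lt
      exact inv_lt_one_of_one_lt₀ h2
    exact h1.comp hφ.tendsto_atTop
  set Y : ℕ → Matrix (Fin n) (Fin n) ℚ_[l] := fun m =>
    ((M.ρ l g : Matrix.GeneralLinearGroup (Fin n) ℚ_[l]) : Matrix (Fin n) (Fin n) ℚ_[l]) ^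
      (l ^ φ m) with hYdef
  have hYg : ∀ m, Y m = ((M.ρ l (g ^ (l ^ φ m)) : Matrix.GeneralLinearGroup (Fin n) ℚ_[l]) :
      Matrix (Fin n) (Fin n) ℚ_[l]) := by
    intro m
    rw [map_pow, Units.val_pow_eq_pow_val]
  have hA : A ∈ glie M l := by
    unfold glie
    rw [Submodule.mem_iInf]
    intro H
    rw [Submodule.mem_iInf]
    intro hH f hf
    obtain ⟨H₁, hle, -, -, e, he, hHe⟩ := exists_core H hH
    have h1 := dr_ev hq hq0 (fun m => Y m ^ e) ((e : ℚ_[l]) • A)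
      (dr_pow hq hq0 Y A hY e) f
    have h2 : ∀ m, ev (Y m ^ e) f = 0 := by
      intro m
      have h3 : Y m ^ e = ((M.ρ l ((g ^ e) ^ (l ^ φ m)) :
          Matrix.GeneralLinearGroup (Fin n) ℚ_[l]) : Matrix (Fin n) (Fin n) ℚ_[l]) := by
        rw [hYg, ← pow_mul, mul_comm, pow_mul, ← Units.val_pow_eq_pow_val, ← map_pow]
      rw [h3]
      exact hf _ ⟨_, pow_mem (hle (hHe g)) _, rfl⟩
    have h5 : ev (1 : Matrix (Fin n) (Fin n) ℚ_[l]) f = 0 := by
      have := hf 1 (one_mem _)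
      rwa [Units.val_one] at this
    have h6 : Tendsto (fun m => (ev (Y m ^ e) f - ev (1 : Matrix (Fin n) (Fin n) ℚ_[l]) f) / q m)
        atTop (𝓝 0) := by
      simp only [h2, h5, sub_zero, zero_div]
      exact tendsto_const_nhds
    have h7 := tendsto_nhds_unique h1 h6
    have h8 : (e : ℚ_[l]) * ∑ i, ∑ j, A i j *
        ev (1 : Matrix (Fin n) (Fin n) ℚ_[l]) (MvPolynomial.pderiv (i, j) f) = 0 := by
      rw [← h7, Finset.mul_sum]
      refine Finset.sum_congr rfl fun i _ => ?_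
      rw [Finset.mul_sum]
      refine Finset.sum_congr rfl fun j _ => ?_
      rw [Matrix.smul_apply, smul_eq_mul, mul_assoc]
    have he0 : (e : ℚ_[l]) ≠ 0 := by
      have : e ≠ 0 := by omega
      exact_mod_cast this
    exact (mul_eq_zero.1 h8).resolve_left he0
  have hkA := hk A hA
  have hΦ : ∀ i j, Tendsto (fun m => (tp a (Y m) * (Matrix.of t : Matrix (Fin a → Fin n)
      (Fin b → Fin n) ℚ_[l]) - Matrix.of t * tp b (Y m)) i j / q m) atTop (𝓝 0) := by
    intro i j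
    have h1 := Dr.sum Finset.univ fun k _ =>
      Dr.mul hq hq0 (dr_tp hq hq0 Y A hY a i k) (Dr.const q (t k j))
    have h2 := Dr.sum Finset.univ fun k _ =>
      Dr.mul hq hq0 (Dr.const q (t i k)) (dr_tp hq hq0 Y A hY b k j)
    have h3 := h1.sub h2
    have h4 : (∑ k, (1 : Matrix (Fin a → Fin n) (Fin a → Fin n) ℚ_[l]) i k * t k j) -
        ∑ k, t i k * (1 : Matrix (Fin b → Fin n) (Fin b → Fin n) ℚ_[l]) k j = 0 := by
      have h5 : (∑ k, (1 : Matrix (Fin a → Fin n) (Fin a → Fin n) ℚ_[l]) i k * t k j) =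
          ((1 : Matrix (Fin a → Fin n) (Fin a → Fin n) ℚ_[l]) * (Matrix.of t :
            Matrix (Fin a → Fin n) (Fin b → Fin n) ℚ_[l])) i j := rfl
      have h6 : ∑ k, t i k * (1 : Matrix (Fin b → Fin n) (Fin b → Fin n) ℚ_[l]) k j =
          ((Matrix.of t : Matrix (Fin a → Fin n) (Fin b → Fin n) ℚ_[l]) *
            (1 : Matrix (Fin b → Fin n) (Fin b → Fin n) ℚ_[l])) i j := rfl
      rw [h5, h6, Matrix.one_mul, Matrix.mul_one, sub_self]
    have h7 : (∑ k, (dtp a A i k * t k j +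
        (1 : Matrix (Fin a → Fin n) (Fin a → Fin n) ℚ_[l]) i k * 0)) -
        ∑ k, (0 * (1 : Matrix (Fin b → Fin n) (Fin b → Fin n) ℚ_[l]) k j +
          t i k * dtp b A k j) = 0 := by
      have h8 : (dtp a A * (Matrix.of t : Matrix (Fin a → Fin n) (Fin b → Fin n) ℚ_[l])) i j =
        ((Matrix.of t : Matrix (Fin a → Fin n) (Fin b → Fin n) ℚ_[l]) * dtp b A) i j :=
          congrFun (congrFun hkA i) j
      simp only [mul_zero, add_zero, zero_mul, zero_add]
      rw [sub_eq_zero]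
      exact h8
    rw [h4, h7] at h3
    refine Tendsto.congr (fun m => ?_) h3
    beta_reduce
    rw [sub_zero]
    rfl
  have hmem : ∀ m, g ^ (l ^ φ m) ∈ Hs M l a b := fun m => pow_mem hg _
  have hbd : ∀ m (k j : Fin b → Fin n), ‖tp b
      (((M.ρ l (g ^ (l ^ φ m)))⁻¹ : Matrix.GeneralLinearGroup (Fin n) ℚ_[l]) :
        Matrix (Fin n) (Fin n) ℚ_[l]) k j‖ ≤ 1 := by
    intro m k j
    have h1 := (mem_Hs.1 (inv_mem (hmem m))).2
    rw [map_inv] at h1
    unfold MT.tp
    rw [norm_prod]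
    exact Finset.prod_le_one (fun _ _ => norm_nonneg _) fun s _ => vec_entry h1 (k s) (j s)
  have hlim2 : Tendsto (fun m => (q m)⁻¹ • (act (M.ρ l (g ^ (l ^ φ m))) t - t)) atTop
      (𝓝 (0 : Tensor n a b ℚ_[l])) := by
    rw [tendsto_pi_nhds]
    intro i
    rw [tendsto_pi_nhds]
    intro j
    have h1 : ∀ m, ((q m)⁻¹ • (act (M.ρ l (g ^ (l ^ φ m))) t - t)) i j =
        ∑ k, ((tp a (Y m) * (Matrix.of t : Matrix (Fin a → Fin n)
          (Fin b → Fin n) ℚ_[l]) - Matrix.of t * tp b (Y m)) i k / q m) * tp b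
            (((M.ρ l (g ^ (l ^ φ m)))⁻¹ : Matrix.GeneralLinearGroup (Fin n) ℚ_[l]) :
              Matrix (Fin n) (Fin n) ℚ_[l]) k j := by
      intro m
      have h2 : (Matrix.of (act (M.ρ l (g ^ (l ^ φ m))) t) :
          Matrix (Fin a → Fin n) (Fin b → Fin n) ℚ_[l]) - Matrix.of t =
          (tp a (Y m) * (Matrix.of t : Matrix (Fin a → Fin n)
            (Fin b → Fin n) ℚ_[l]) - Matrix.of t * tp b (Y m)) * tp b
            (((M.ρ l (g ^ (l ^ φ m)))⁻¹ : Matrix.GeneralLinearGroup (Fin n) ℚ_[l]) :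
              Matrix (Fin n) (Fin n) ℚ_[l]) := by
        rw [of_act, Matrix.sub_mul, Matrix.mul_assoc (Matrix.of t), hYg, tp_inv_right,
          Matrix.mul_one]
      have h3 := congrFun (congrFun h2 i) j
      rw [Matrix.mul_apply] at h3
      have h4 : ((q m)⁻¹ • (act (M.ρ l (g ^ (l ^ φ m))) t - t)) i j =
          (q m)⁻¹ * ((Matrix.of (act (M.ρ l (g ^ (l ^ φ m))) t) :
            Matrix (Fin a → Fin n) (Fin b → Fin n) ℚ_[l]) - Matrix.of t) i j := rfl
      rw [h4, h3, Finset.mul_sum]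
      refine Finset.sum_congr rfl fun k _ => ?_
      rw [div_eq_inv_mul, mul_assoc]
    simp only [h1]
    have h5 : ((0 : Tensor n a b ℚ_[l]) i j) = ∑ k : Fin b → Fin n, (0 : ℚ_[l]) := by simp
    rw [h5]
    refine tendsto_finsetSum _ fun k _ => ?_
    refine squeeze_zero_norm (fun m => ?_) ((hΦ i k).norm.trans (by rw [norm_zero]))
    rw [norm_mul]
    calc _ ≤ _ * 1 := mul_le_mul_of_nonneg_left (hbd m k j) (norm_nonneg _)
      _ = _ := mul_one _
  have hconst : ∀ m, ‖(q m)⁻¹ • (act (M.ρ l (g ^ (l ^ φ m))) t - t)‖ =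
      ‖act (M.ρ l g) t - t‖ := by
    intro m
    have h1 := hga.iso (φ m) t
    rw [← map_pow, ← map_pow, actH_apply, actH_apply] at h1
    rw [norm_smul, h1, norm_inv, norm_pow, Padic.norm_p]
    have : (0 : ℝ) < (l : ℝ) ^ φ m := by positivity
    rw [inv_pow, inv_inv, ← mul_assoc, mul_inv_cancel₀ this.ne', one_mul]
  have hn := hlim2.norm
  simp only [hconst, norm_zero] at hn
  have h0 := tendsto_nhds_unique hn tendsto_const_nhds
  exact sub_eq_zero.1 (norm_eq_zero.1 h0.symm)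

end Grp

end Kt91

/-- KT. -/
theorem st_KT : ST_KT := by
  intro F _ _ S n w h M l _ a b t hk
  exact ⟨Kt91.Hs M l a b, Kt91.isOpen_Hs M l a b, fun g hg => Kt91.main M l a b t hk g hg⟩

end HG
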